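import Pool.Agent.MP_151d89_pr.H67E.Spec
import Pool.Agent.MP_151d89_pr.H35.Flip

/-!
The pair energy of parallel towers in neighbouring lines.
-/

set_option autoImplicit false
open MeasureTheory Finset

namespace Pool.Agent.MP_151d89_pr.H87
open Pool.Agent.MP_151d89_pr.H82 Pool.Agent.MP_151d89_pr.H33 Pool.Agent.MP_151d89_pr.H67
  Pool.Agent.MP_151d89_pr.H30 Pool.Agent.MP_151d89_pr.H27 Pool.Agent.MP_151d89_pr.H45
  Pool.Agent.MP_151d89_pr.H67E
open Pool.Agent.MP_151d89_pr.H30W (Leg al Hi Lo fl NoDesc)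
open Classical

variable {μ : Measure Conf} {φ : ℤ × ℤ → ℝ} {U : Finset (ℤ × ℤ)} {lam TV : ℝ}
  {A : Bool → ℤ × ℤ → ℝ}

/-- down towers with a fixed start are disjoint events -/
theorem fixD (hμ : Gibbs μ) (M : Finset Mv) (b : Bool) (x : ℤ × ℤ) {Q : Set Conf}
    (hQ : MeasurableSet Q) {g : Mv → ℝ}
    (hg : ∀ m, g m ≠ 0 → m.1 = b ∧ m.2.1 = x ∧ g m ≤ μ.real {f | Av (-1) m f ∧ f ∈ Q}) :
    ∑ m ∈ M, g m ≤ μ.real Q := by
  refine le_trans (sum_inj M (M.image fun m => m.2.2) (fun m => m.2.2)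
    (fun m hm _ => mem_image_of_mem _ hm) ?_ ?_ fun _ _ => measureReal_nonneg)
    (H35.dn_disj hμ b x _ hQ)
  · rintro ⟨b1, x1, l1⟩ - ⟨b2, x2, l2⟩ - h1 h2 e
    obtain ⟨a1, a2, -⟩ := hg _ h1
    obtain ⟨a3, a4, -⟩ := hg _ h2
    simp only at a1 a2 a3 a4 e
    rw [a1, a2, a3, a4, e]
  · rintro ⟨b1, x1, l1⟩ - h1
    obtain ⟨a1, a2, a3⟩ := hg _ h1
    simp only at a1 a2
    subst a1 a2
    exact a3

theorem back (b : Bool) (x : ℤ × ℤ) (l : ℤ) : pt b (pt b x l) (-l) = x := by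
  rw [RunAux.pt_pt, add_neg_cancel, pt_zero]

/-- up towers with a fixed end are disjoint events -/
theorem fixU (hμ : Gibbs μ) (M : Finset Mv) (b : Bool) (y : ℤ × ℤ) {Q : Set Conf}
    (hQ : MeasurableSet Q) {g : Mv → ℝ}
    (hg : ∀ m, g m ≠ 0 → m.1 = b ∧ pt m.1 m.2.1 m.2.2 = y ∧
      g m ≤ μ.real {f | f ∈ Q ∧ Av 1 m f}) :
    ∑ m ∈ M, g m ≤ μ.real Q := by
  refine le_trans (sum_inj M (M.image fun m => m.2.2) (fun m => m.2.2)
    (fun m hm _ => mem_image_of_mem _ hm) ?_ ?_ fun _ _ => measureReal_nonneg)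
    (H35.up_disj hμ b y _ hQ)
  · rintro ⟨b1, x1, l1⟩ - ⟨b2, x2, l2⟩ - h1 h2 e
    obtain ⟨a1, a2, -⟩ := hg _ h1
    obtain ⟨a3, a4, -⟩ := hg _ h2
    simp only at a1 a2 a3 a4 e
    subst a1 a3 e
    rw [← back b2 x1 l1, a2, ← a4, back]
  · rintro ⟨b1, x1, l1⟩ - h1
    obtain ⟨a1, a2, a3⟩ := hg _ h1
    simp only at a1 a2
    subst a1 a2
    simpa only [back] using a3

theorem len_lt_sup (M : Finset Mv) {m : Mv} (hm : m ∈ M) :
    m.2.2 < (M.sup fun m => m.2.2) + 1 :=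
  Nat.lt_succ_of_le (le_sup (f := fun m : Mv => m.2.2) hm)

/-- the flux through a site is small against the collinear rods -/
theorem cover (h : Dat μ φ U lam TV A) (M : Finset Mv) (b : Bool) (z : ℤ × ℤ) :
    (∑ g ∈ M, ∑ t ∈ range (g.2.2 + 1),
      if g.1 = b ∧ pt g.1 g.2.1 t = z then pp μ g else 0) * A b z ≤ 2 := by
  set N := M.sup fun m => m.2.2
  have h1 : (∑ g ∈ M, ∑ t ∈ range (g.2.2 + 1),
      if g.1 = b ∧ pt g.1 g.2.1 t = z then pp μ g else 0) ≤
      ∑ t ∈ range (N + 1), μ.real {f | Rdg b (pt b z (-(t : ℕ))) t f} := by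
    calc _ ≤ ∑ g ∈ M, ∑ t ∈ range (N + 1),
          if t ≤ g.2.2 ∧ g.1 = b ∧ pt g.1 g.2.1 t = z then pp μ g else 0 := by
          refine sum_le_sum fun g hg => ?_
          refine le_trans (sum_le_sum fun t ht => ?_) (sum_le_sum_of_subset_of_nonneg
            (range_subset_range.2 (len_lt_sup M hg)) fun t _ _ => ?_)
          · have := mem_range.1 ht
            simp only [show t ≤ g.2.2 by omega, true_and, le_refl]
          · split_ifs
            exacts [pp_nonneg _ _, le_rfl]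
      _ ≤ _ := by
          rw [sum_comm]
          refine sum_le_sum fun t _ => fixD h.gib M b (pt b z (-(t : ℕ))) (meas_Rdg _ _ _) ?_
          rintro ⟨b1, x1, l1⟩ hg
          split_ifs at hg ⊢ with e
          · obtain ⟨e1, e2, e3⟩ := e
            simp only at e1 e2 e3
            subst e2 e3
            refine ⟨rfl, (back _ _ _).symm, real_mono h.gib fun f _ a => ⟨a, ?_⟩⟩
            rw [back]
            exact H27.av_rdg a e1
          · exact absurd rfl hg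
  have h2 := dual h.gib h.tri b b z (range N)
  have h3 : μ.real {f | Rdg b (pt b z (-(0 : ℕ))) 0 f} * A b z ≤ 1 := by
    refine le_trans (mul_le_mul_of_nonneg_right (real_mono h.gib fun f _ a => ?_) (h.A0 b z))
      (h.a0 b z)
    have := a.2.1
    simp only [Nat.cast_zero, neg_zero, pt_zero] at this
    simp only [Hi, Set.mem_ofPred_eq]
    omega
  have h4 := mul_le_mul_of_nonneg_left (h.A1 b z)
    (sum_nonneg (s := range N) fun l _ => (measureReal_nonneg :
      0 ≤ μ.real {f | Rdg b (pt b z (-(l + 1 : ℕ))) (l + 1) f}))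
  refine (mul_le_mul_of_nonneg_right h1 (h.A0 b z)).trans ?_
  rw [sum_range_succ', add_mul]
  linarith

/-- links in the line of the ranging tower -/
theorem cov (h : Dat μ φ U lam TV A) (M : Finset Mv) :
    ∑ g ∈ M, ∑ t ∈ range (g.2.2 + 1),
      ww φ (!g.1) (pt g.1 g.2.1 t) * A g.1 (pt g.1 g.2.1 t) * pp μ g ≤ 4 * TV := by
  set Z : Finset (ℤ × ℤ) := M.biUnion tow
  calc _ = ∑ g ∈ M, ∑ t ∈ range (g.2.2 + 1), ∑ b : Bool, ∑ z ∈ Z,
        ww φ (!b) z * A b z * if g.1 = b ∧ pt g.1 g.2.1 t = z then pp μ g else 0 := by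
        refine sum_congr rfl fun g hg => sum_congr rfl fun t ht => ?_
        have hz : pt g.1 g.2.1 t ∈ Z :=
          mem_biUnion.2 ⟨g, hg, mem_image_of_mem (fun t : ℕ => pt g.1 g.2.1 t) ht⟩
        rw [sum_eq_single g.1, sum_eq_single (pt g.1 g.2.1 t)]
        · simp
        · intro z _ e
          simp [e.symm]
        · intro e
          exact absurd hz e
        · intro b _ e
          simp [e.symm]
        · simp
    _ = ∑ b : Bool, ∑ z ∈ Z, ww φ (!b) z * ((∑ g ∈ M, ∑ t ∈ range (g.2.2 + 1),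
          if g.1 = b ∧ pt g.1 g.2.1 t = z then pp μ g else 0) * A b z) := by
        simp only [sum_mul, mul_sum]
        rw [sum_congr rfl fun g _ => sum_comm, sum_comm]
        refine sum_congr rfl fun b _ => ?_
        rw [sum_congr rfl fun g _ => sum_comm, sum_comm]
        refine sum_congr rfl fun z _ => sum_congr rfl fun g _ => sum_congr rfl fun t _ => ?_
        ring
    _ ≤ ∑ b : Bool, ∑ z ∈ Z, ww φ (!b) z * 2 :=
        sum_le_sum fun b _ => sum_le_sum fun z _ =>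
          mul_le_mul_of_nonneg_left (cover h M b z) (ww_nonneg _ _ _)
    _ ≤ _ := by
        simp only [← sum_mul, Fintype.sum_bool]
        linarith [h.tv (!true) Z, h.tv (!false) Z]

/-- all sites of a tower lie in S -/
def Sub (S : Set (ℤ × ℤ)) (m : Mv) : Prop := ∀ t : ℕ, t ≤ m.2.2 → pt m.1 m.2.1 t ∈ S

/-- one term of the first moment -/
noncomputable def Lt (μ : Measure Conf) (U : Finset (ℤ × ℤ)) (m : Mv) : ℝ :=
  pp μ m * ∑ t ∈ range (m.2.2 + 1), ind (pt m.1 m.2.1 t ∈ U)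

theorem Lt_nonneg (m : Mv) : 0 ≤ Lt μ U m :=
  mul_nonneg (pp_nonneg μ m) (sum_nonneg fun _ _ => ind_nonneg _)

theorem Lt_eq {m : Mv} (h : Sub U m) : Lt μ U m = (m.2.2 + 1) * pp μ m := by
  have : ∑ t ∈ range (m.2.2 + 1), ind (pt m.1 m.2.1 t ∈ U) = ∑ t ∈ range (m.2.2 + 1), (1 : ℝ) :=
    sum_congr rfl fun t ht => if_pos (h t (by have := mem_range.1 ht; omega))
  rw [Lt, this]
  simp [mul_comm]

theorem sub_II {n : ℕ} {m : Mv} (h : m ∈ II n) : Sub {y | nrm y ≤ n} m := fun t ht => by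
  have a := mem_II.1 h
  exact (nrm_conv m.1 m.2.1 ht).trans (max_le a.1 a.2.2)

theorem Lt_sum {n : ℕ} {T : Mv → ℝ} (h1 : ∀ u, T u ≤ (u.2.2 + 1) * pp μ u)
    (h2 : ∀ u, T u ≠ 0 → Sub U u) : ∑ u ∈ II n, T u ≤ LL μ n U :=
  sum_inj (II n) (TT n) id (fun _ hu _ => II_TT hu) (fun _ _ _ _ _ _ e => e)
    (fun u _ e => (h1 u).trans (Lt_eq (h2 u e)).ge) fun u _ => Lt_nonneg u

/-- the data of a shortening of towers at the anchor -/
structure Sh (μ : Measure Conf) (A : Bool → ℤ × ℤ → ℝ) (anc : Mv → ℤ × ℤ) (sh : Mv → Mv) :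
    Prop where
  inj : ∀ u v : Mv, u.1 = v.1 → u.2.2 = v.2.2 → anc u = anc v → u = v
  a0 : ∀ u, A u.1 (anc u) * pp μ u ≤ 1
  a1 : ∀ u : Mv, 1 ≤ u.2.2 → A u.1 (anc u) * pp μ u ≤ pp μ (sh u)
  lip : ∀ u : Mv, 1 ≤ u.2.2 → A u.1 (anc u) ≤ A (sh u).1 (anc (sh u)) + 1
  len : ∀ u : Mv, (sh u).2.2 = u.2.2 - 1
  sub : ∀ (S : Set (ℤ × ℤ)) (u : Mv), 1 ≤ u.2.2 → Sub S u → Sub S (sh u)
  inj' : ∀ u v : Mv, 1 ≤ u.2.2 → 1 ≤ v.2.2 → sh u = sh v → u = v

theorem sub_TT {n : ℕ} {m : Mv} (h : Sub {y | nrm y ≤ n} m) (h' : m.2.2 ≤ 2 * n) : m ∈ TT n := by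
  refine mem_TT.2 ⟨?_, h'⟩
  simpa only [Nat.cast_zero, pt_zero, Set.mem_ofPred_eq] using h 0 (Nat.zero_le _)

/-- links in the line of the fixed tower -/
theorem side (h : Dat μ φ U lam TV A) {anc : Mv → ℤ × ℤ} {sh : Mv → Mv} (hs : Sh μ A anc sh)
    (n : ℕ) {T : Mv → ℝ} (h0 : ∀ u, 0 ≤ T u) (h1 : ∀ u, T u ≤ (u.2.2 + 1) * pp μ u)
    (h2 : ∀ u, T u ≠ 0 → Sub U u) :
    ∑ u ∈ II n, ww φ (!u.1) (anc u) ^ 2 * T u ≤ 16 * (lam * TV) + 42 * (lam ^ 2 * LL μ n U) := by
  have hl := h.lam0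
  have key : ∀ u ∈ II n, ww φ (!u.1) (anc u) ^ 2 * T u ≤
      4 * lam * (if u.2.2 ≤ 1 then ww φ (!u.1) (anc u) else 0) + 32 * lam ^ 2 * T u +
      6 * lam ^ 2 * (if 2 ≤ u.2.2 ∧ T u ≠ 0 then Lt μ U (sh (sh u)) else 0) +
      4 * lam ^ 2 * (if 2 ≤ u.2.2 ∧ T u ≠ 0 then Lt μ U (sh u) else 0) := by
    intro u _
    have e := h.edge' (!u.1) (anc u)
    rw [Bool.not_not] at e
    have w0 := ww_nonneg φ (!u.1) (anc u)
    have A0 := h.A0 u.1 (anc u)
    have p0 := pp_nonneg μ u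
    by_cases hT : T u = 0
    · simp only [hT, ne_eq, not_true, and_false, if_false, mul_zero, add_zero]
      split_ifs <;> positivity
    by_cases hu : u.2.2 ≤ 1
    · rw [if_pos hu, if_neg (by omega), if_neg (by omega)]
      have c : (u.2.2 : ℝ) ≤ 1 := by exact_mod_cast hu
      have a1 : T u ≤ 2 * pp μ u := (h1 u).trans (by nlinarith)
      have a2 : A u.1 (anc u) * T u ≤ 2 := by nlinarith [hs.a0 u]
      have a3 := mul_le_mul_of_nonneg_right e.1 (h0 u)
      nlinarith [mul_le_mul_of_nonneg_left a2 (mul_nonneg hl w0)]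
    · have s1 := hs.sub _ u (by omega) (h2 u hT)
      have l1 := hs.len u
      have l2 := hs.len (sh u)
      have s2 := hs.sub _ (sh u) (by omega) s1
      rw [if_neg hu, if_pos ⟨by omega, hT⟩, if_pos ⟨by omega, hT⟩, Lt_eq s1, Lt_eq s2]
      have c1 : ((sh u).2.2 : ℝ) = (sh (sh u)).2.2 + 1 := by
        have : (sh u).2.2 = (sh (sh u)).2.2 + 1 := by omega
        exact_mod_cast this
      have c2 : (u.2.2 : ℝ) = (sh (sh u)).2.2 + 2 := by
        have : u.2.2 = (sh (sh u)).2.2 + 2 := by omega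
        exact_mod_cast this
      have c3 : (0 : ℝ) ≤ (sh (sh u)).2.2 := Nat.cast_nonneg _
      have b1 := hs.a1 u (by omega)
      have b2 := hs.a1 (sh u) (by omega)
      have b3 := hs.lip u (by omega)
      have p1 := pp_nonneg μ (sh u)
      have p2 := pp_nonneg μ (sh (sh u))
      have b4 : A u.1 (anc u) ^ 2 * pp μ u ≤ pp μ (sh (sh u)) + pp μ (sh u) := by
        nlinarith [mul_le_mul_of_nonneg_left b1 A0, mul_le_mul_of_nonneg_right b3 p1]
      have b5 : A u.1 (anc u) ^ 2 * T u ≤ (u.2.2 + 1) * (pp μ (sh (sh u)) + pp μ (sh u)) := by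
        nlinarith [mul_le_mul_of_nonneg_left (h1 u) (sq_nonneg (A u.1 (anc u))),
          mul_le_mul_of_nonneg_left b4 (show (0 : ℝ) ≤ u.2.2 + 1 by positivity)]
      have b6 : A u.1 (anc u) ^ 2 * T u ≤ 3 * (((sh (sh u)).2.2 + 1) * pp μ (sh (sh u))) +
          2 * (((sh u).2.2 + 1) * pp μ (sh u)) := by
        rw [c2] at b5
        rw [c1]
        nlinarith [mul_nonneg c3 p1, mul_nonneg c3 p2]
      have a3 := mul_le_mul_of_nonneg_right e.2 (h0 u)
      nlinarith [mul_le_mul_of_nonneg_left b6 (sq_nonneg lam)]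
  have s1 : ∑ u ∈ II n, (if u.2.2 ≤ 1 then ww φ (!u.1) (anc u) else 0) ≤ 4 * TV := by
    refine le_trans (sum_inj (II n) (univ ×ˢ range 2 ×ˢ (II n).image anc)
      (fun u => (u.1, u.2.2, anc u)) (h := fun v => ww φ (!v.1) v.2.2) ?_ ?_ ?_
      fun _ _ => ww_nonneg _ _ _) ?_
    · intro u hu e
      have : u.2.2 ≤ 1 := by_contra fun c => e (if_neg c)
      simp only [mem_product, mem_univ, mem_range, true_and]
      exact ⟨by omega, mem_image_of_mem _ hu⟩
    · intro u _ v _ _ _ e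
      simp only [Prod.mk.injEq] at e
      exact hs.inj u v e.1 e.2.1 e.2.2
    · intro u _ e
      exact (if_pos (by_contra fun c => e (if_neg c))).le
    · simp only [sum_product, Fintype.sum_bool, sum_const, card_range, nsmul_eq_mul, Nat.cast_ofNat]
      linarith [h.tv (!true) ((II n).image anc), h.tv (!false) ((II n).image anc)]
  have s2 := Lt_sum (n := n) h1 h2
  have s3 : ∑ u ∈ II n, (if 2 ≤ u.2.2 ∧ T u ≠ 0 then Lt μ U (sh (sh u)) else 0) ≤ LL μ n U := by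
    refine sum_inj (II n) (TT n) (fun u => sh (sh u)) ?_ ?_ ?_ fun u _ => Lt_nonneg u
    · intro u hu e
      have c : 2 ≤ u.2.2 ∧ T u ≠ 0 := by_contra fun c => e (if_neg c)
      have l1 := hs.len u
      have l2 := hs.len (sh u)
      have l3 := (mem_TT.1 (II_TT hu)).2
      exact sub_TT (hs.sub _ _ (by omega) (hs.sub _ u (by omega) (sub_II hu))) (by omega)
    · intro u _ v _ e1 e2 e
      have c : 2 ≤ u.2.2 ∧ T u ≠ 0 := by_contra fun c => e1 (if_neg c)
      have c' : 2 ≤ v.2.2 ∧ T v ≠ 0 := by_contra fun c => e2 (if_neg c)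
      have l1 := hs.len u
      have l2 := hs.len v
      exact hs.inj' u v (by omega) (by omega) (hs.inj' _ _ (by omega) (by omega) e)
    · intro u _ e
      exact (if_pos (by_contra fun c => e (if_neg c))).le
  have s4 : ∑ u ∈ II n, (if 2 ≤ u.2.2 ∧ T u ≠ 0 then Lt μ U (sh u) else 0) ≤ LL μ n U := by
    refine sum_inj (II n) (TT n) sh ?_ ?_ ?_ fun u _ => Lt_nonneg u
    · intro u hu e
      have c : 2 ≤ u.2.2 ∧ T u ≠ 0 := by_contra fun c => e (if_neg c)
      have l1 := hs.len u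
      have l3 := (mem_TT.1 (II_TT hu)).2
      exact sub_TT (hs.sub _ u (by omega) (sub_II hu)) (by omega)
    · intro u _ v _ e1 e2 e
      have c : 2 ≤ u.2.2 ∧ T u ≠ 0 := by_contra fun c => e1 (if_neg c)
      have c' : 2 ≤ v.2.2 ∧ T v ≠ 0 := by_contra fun c => e2 (if_neg c)
      exact hs.inj' u v (by omega) (by omega) e
    · intro u _ e
      exact (if_pos (by_contra fun c => e (if_neg c))).le
  refine (sum_le_sum key).trans ?_
  simp only [sum_add_distrib, ← mul_sum]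
  nlinarith [mul_le_mul_of_nonneg_left s1 hl, mul_le_mul_of_nonneg_left s2 (sq_nonneg lam),
    mul_le_mul_of_nonneg_left s3 (sq_nonneg lam), mul_le_mul_of_nonneg_left s4 (sq_nonneg lam)]

/-- the contact data of a fixed tower u and a ranging tower g with contact site number t -/
structure Ct (μ : Measure Conf) (U : Finset (ℤ × ℤ)) (n : ℕ) (P : Mv → Mv → ℝ)
    (K : Mv → Mv → ℕ → Prop) : Prop where
  p0 : ∀ u g, 0 ≤ P u g
  p1 : ∀ g t, ∑ u ∈ II n, (if K u g t then P u g else 0) ≤ pp μ g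
  p2 : ∀ u, ∑ g ∈ II n, ∑ t ∈ range (g.2.2 + 1), (if K u g t then P u g else 0) ≤
    (u.2.2 + 1) * pp μ u
  sub : ∀ u g t, K u g t → Sub U u

/-- the multiplicity of a fixed tower -/
noncomputable def Tm (n : ℕ) (P : Mv → Mv → ℝ) (K : Mv → Mv → ℕ → Prop) (u : Mv) : ℝ :=
  ∑ g ∈ II n, ∑ t ∈ range (g.2.2 + 1), if K u g t then P u g else 0

variable {n : ℕ} {P : Mv → Mv → ℝ} {K : Mv → Mv → ℕ → Prop}

theorem Ct.i0 (c : Ct μ U n P K) (u g : Mv) (t : ℕ) : 0 ≤ if K u g t then P u g else 0 := by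
  split_ifs
  exacts [c.p0 _ _, le_rfl]

theorem Ct.t0 (c : Ct μ U n P K) (u : Mv) : 0 ≤ Tm n P K u :=
  sum_nonneg fun g _ => sum_nonneg fun t _ => c.i0 u g t

theorem Ct.t2 (c : Ct μ U n P K) (u : Mv) (e : Tm n P K u ≠ 0) : Sub U u := by
  obtain ⟨g, -, e1⟩ := exists_ne_zero_of_sum_ne_zero e
  obtain ⟨t, -, e2⟩ := exists_ne_zero_of_sum_ne_zero e1
  exact c.sub u g t (by_contra fun a => e2 (if_neg a))

/-- splitting into the link and the oscillation of the ranging tower -/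
theorem scheme (c : Ct μ U n P K) {R : Mv → Mv → Prop} {D : Mv → Mv → ℝ} {w : Mv → ℝ}
    (hR : ∀ u g, R u g → ∃ t : ℕ, t ≤ g.2.2 ∧ K u g t ∧ D u g ≤ 2 * w u ^ 2 + 2 * os φ g t ^ 2) :
    ∑ u ∈ II n, ∑ g ∈ II n, (if R u g then D u g * P u g else 0) ≤
      2 * ∑ u ∈ II n, w u ^ 2 * Tm n P K u + 2 * QQ μ n φ := by
  calc _ ≤ ∑ u ∈ II n, ∑ g ∈ II n, ∑ t ∈ range (g.2.2 + 1),
        (2 * w u ^ 2 + 2 * os φ g t ^ 2) * if K u g t then P u g else 0 := by
        refine sum_le_sum fun u _ => sum_le_sum fun g _ => ?_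
        have nn : ∀ t ∈ range (g.2.2 + 1),
            0 ≤ (2 * w u ^ 2 + 2 * os φ g t ^ 2) * if K u g t then P u g else 0 :=
          fun t _ => mul_nonneg (by positivity) (c.i0 u g t)
        split_ifs with e
        · obtain ⟨t, a1, a2, a3⟩ := hR u g e
          refine le_trans ?_ (single_le_sum nn (mem_range.2 (Nat.lt_succ_of_le a1)))
          rw [if_pos a2]
          exact mul_le_mul_of_nonneg_right a3 (c.p0 u g)
        · exact sum_nonneg nn
    _ = 2 * ∑ u ∈ II n, w u ^ 2 * Tm n P K u + 2 * ∑ g ∈ II n, ∑ t ∈ range (g.2.2 + 1),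
        os φ g t ^ 2 * ∑ u ∈ II n, if K u g t then P u g else 0 := by
        simp only [add_mul, sum_add_distrib, Tm, mul_sum, mul_assoc]
        congr 1
        rw [sum_comm]
        exact sum_congr rfl fun g _ => sum_comm
    _ ≤ _ := by
        have : ∑ g ∈ II n, ∑ t ∈ range (g.2.2 + 1),
            os φ g t ^ 2 * ∑ u ∈ II n, (if K u g t then P u g else 0) ≤ QQ μ n φ := by
          refine le_trans (sum_le_sum fun g _ => ?_) (sum_le_sum_of_subset_of_nonneg
            (fun g hg => II_TT hg) fun g _ _ =>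
              mul_nonneg (pp_nonneg μ g) (sum_nonneg fun _ _ => sq_nonneg _))
          rw [mul_sum]
          refine sum_le_sum fun t _ => ?_
          rw [mul_comm (pp μ g)]
          exact mul_le_mul_of_nonneg_left (c.p1 g t) (sq_nonneg _)
        linarith

/-- the link sum when the lower end lies in the line of the ranging tower -/
theorem dualT (h : Dat μ φ U lam TV A) (c : Ct μ U n P K) {z : Mv → ℤ × ℤ}
    (hz : ∀ u g t, K u g t → g.1 = u.1 ∧ pt g.1 g.2.1 t = z u) :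
    ∑ u ∈ II n, ww φ (!u.1) (z u) ^ 2 * Tm n P K u ≤
      16 * (lam * TV) + 42 * (lam ^ 2 * LL μ n U) := by
  have hl := h.lam0
  have s1 : ∑ u ∈ II n, ww φ (!u.1) (z u) * A u.1 (z u) * Tm n P K u ≤ 4 * TV := by
    refine le_trans ?_ (cov h (II n))
    simp only [Tm, mul_sum]
    rw [sum_comm]
    refine sum_le_sum fun g _ => ?_
    rw [sum_comm]
    refine sum_le_sum fun t _ => le_trans ?_ (mul_le_mul_of_nonneg_left (c.p1 g t)
      (mul_nonneg (ww_nonneg _ _ _) (h.A0 _ _)))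
    rw [mul_sum]
    refine sum_le_sum fun u _ => ?_
    split_ifs with e
    · rw [(hz u g t e).2, (hz u g t e).1]
    · simp
  have s2 := Lt_sum (n := n) (T := Tm n P K) c.p2 c.t2
  have key : ∀ u ∈ II n, ww φ (!u.1) (z u) ^ 2 * Tm n P K u ≤
      2 * lam * (ww φ (!u.1) (z u) * A u.1 (z u) * Tm n P K u) + 32 * lam ^ 2 * Tm n P K u := by
    intro u _
    have e := (h.edge' (!u.1) (z u)).1
    rw [Bool.not_not] at e
    nlinarith [mul_le_mul_of_nonneg_right e (c.t0 u)]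
  refine (sum_le_sum key).trans ?_
  simp only [sum_add_distrib, ← mul_sum]
  nlinarith [mul_le_mul_of_nonneg_left s1 hl, mul_le_mul_of_nonneg_left s2 (sq_nonneg lam),
    mul_nonneg hl h.tv0, mul_nonneg (sq_nonneg lam) (LL_nonneg μ n U)]

theorem fin_le (h : Dat μ φ U lam TV A) {X Y : ℝ} (h1 : X ≤ 2 * Y + 2 * QQ μ n φ)
    (h2 : Y ≤ 16 * (lam * TV) + 42 * (lam ^ 2 * LL μ n U)) : X ≤ 200 * Bd μ n φ U lam TV := by
  have a1 := QQ_nonneg μ n φ
  have a2 := mul_nonneg h.lam0 h.tv0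
  have a3 := mul_nonneg (sq_nonneg lam) (LL_nonneg μ n U)
  have a4 := mul_nonneg (sq_nonneg lam) (Nat.cast_nonneg (α := ℝ) U.card)
  rw [Bd]
  nlinarith

theorem final (h : Dat μ φ U lam TV A) (c : Ct μ U n P K) {anc : Mv → ℤ × ℤ} {sh : Mv → Mv}
    (hs : Sh μ A anc sh) {σ : ℤ} (hσ : σ = 1 ∨ σ = -1)
    (hK : ∀ u g t, K u g t → g.1 = u.1 ∧ pt g.1 g.2.1 t = pt (!u.1) (anc u) σ ∧ ps φ g < ps φ u)
    (ha : ∀ u, ps φ u ≤ φ (anc u)) {R : Mv → Mv → Prop}
    (hR : ∀ u g, R u g → ∃ t : ℕ, t ≤ g.2.2 ∧ K u g t) :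
    ∑ u ∈ II n, ∑ g ∈ II n, (if R u g then (ps φ u - ps φ g) ^ 2 * P u g else 0) ≤
      200 * Bd μ n φ U lam TV := by
  have h1 := scheme (φ := φ) c (R := R) (D := fun u g => (ps φ u - ps φ g) ^ 2)
    (w := fun u => |φ (pt (!u.1) (anc u) σ) - φ (anc u)|) fun u g e => by
      obtain ⟨t, a1, a2⟩ := hR u g e
      obtain ⟨-, a3, a4⟩ := hK u g t a2
      refine ⟨t, a1, a2, ?_⟩
      have a5 := ha u
      have a6 := neg_abs_le (φ (pt (!u.1) (anc u) σ) - φ (anc u))
      have a7 : ps φ u - ps φ g ≤ |φ (pt (!u.1) (anc u) σ) - φ (anc u)| + os φ g t := by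
        rw [os, a3]
        linarith
      nlinarith [pow_le_pow_left₀ (sub_nonneg.2 a4.le) a7 2,
        sq_nonneg (|φ (pt (!u.1) (anc u) σ) - φ (anc u)| - os φ g t)]
  refine fin_le h h1 ?_
  rcases hσ with rfl | rfl
  · simpa only [ww, pt_one] using side h hs n c.t0 c.p2 c.t2
  · have := dualT h c (z := fun u => pt (!u.1) (anc u) (-1)) fun u g t e =>
      ⟨(hK u g t e).1, (hK u g t e).2.1⟩
    simp only [ww, pt_neg_one, sub_add_cancel] at this ⊢
    simpa only [abs_sub_comm] using this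

theorem shA (h : Dat μ φ U lam TV A) :
    Sh μ A (fun u => u.2.1) fun u => (u.1, u.2.1 + dir u.1, u.2.2 - 1) where
  inj := fun _ _ a b c => Prod.ext a (Prod.ext c b)
  a0 := fun u => by
    rw [mul_comm]
    refine le_trans (mul_le_mul_of_nonneg_right (real_mono h.gib fun f _ a => ?_) (h.A0 _ _))
      (h.a0 u.1 u.2.1)
    have := a.2.1
    rw [pt_neg_one] at this
    simp only [Hi, Set.mem_ofPred_eq]
    omega
  a1 := by
    rintro ⟨b, x, l⟩ hl
    obtain ⟨k, rfl⟩ : ∃ k, l = k + 1 := ⟨l - 1, by simp only at hl; omega⟩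
    have a := ah' h.gib h.tri b b (pt b x (k + 1 : ℕ)) k
    have e : pt b (pt b x (k + 1 : ℕ)) (-k) = x + dir b := by
      rw [RunAux.pt_pt, ← pt_one]
      congr 1
      push_cast
      ring
    rw [back, e, ← p_rev h.gib] at a
    refine le_trans ?_ a
    rw [mul_comm, pp, p_rev h.gib]
    refine mul_le_mul (real_mono h.gib fun f _ a => ?_) (h.A2 _ _) (h.A0 _ _) measureReal_nonneg
    refine (H45.av_vly (l := k + 1) ?_).1
    rwa [back]
  lip := fun u _ => h.A4 _ _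
  len := fun _ => rfl
  sub := fun S u hl hs t ht => by
    have := hs (t + 1) (by simp only at ht; omega)
    simpa only [pt_dir, Nat.cast_add, Nat.cast_one] using this
  inj' := by
    rintro ⟨b, x, l⟩ ⟨b', x', l'⟩ a1 a2 e
    simp only [Prod.mk.injEq] at a1 a2 e ⊢
    obtain ⟨rfl, e2, e3⟩ := e
    exact ⟨rfl, add_right_cancel e2, by omega⟩

theorem shB (h : Dat μ φ U lam TV A) :
    Sh μ A (fun u => pt u.1 u.2.1 u.2.2) fun u => (u.1, u.2.1, u.2.2 - 1) where
  inj := by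
    rintro ⟨b, x, l⟩ ⟨b', x', l'⟩ a1 a2 e
    simp only at a1 a2 e
    subst a1 a2
    rw [← back b x l, e, back]
  a0 := fun u => by
    rw [mul_comm, pp, p_rev h.gib]
    refine le_trans (mul_le_mul_of_nonneg_right (real_mono h.gib fun f _ a => ?_) (h.A0 _ _))
      (h.a0' u.1 _)
    have a1 := a.2.2.1
    have a2 := a.1 _ le_rfl
    simp only [Lo, Set.mem_ofPred_eq, H45.pt_add]
    omega
  a1 := by
    rintro ⟨b, x, l⟩ hl
    obtain ⟨k, rfl⟩ : ∃ k, l = k + 1 := ⟨l - 1, by simp only at hl; omega⟩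
    refine le_trans ?_ (ah h.gib h.tri b b x k)
    rw [mul_comm]
    exact mul_le_mul (real_mono h.gib fun f _ a => (H45.av_rdg a).1) (h.A1 _ _) (h.A0 _ _)
      measureReal_nonneg
  lip := by
    rintro ⟨b, x, l⟩ hl
    obtain ⟨k, rfl⟩ : ∃ k, l = k + 1 := ⟨l - 1, by simp only at hl; omega⟩
    simpa only [H45.pt_add, Nat.cast_add, Nat.cast_one, Nat.add_sub_cancel] using h.A3 b (pt b x k)
  len := fun _ => rfl
  sub := fun S u hl hs t ht => hs t (by simp only at ht; omega)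
  inj' := by
    rintro ⟨b, x, l⟩ ⟨b', x', l'⟩ a1 a2 e
    simp only [Prod.mk.injEq] at a1 a2 e ⊢
    exact ⟨e.1, e.2.1, by omega⟩

theorem ctA (h : Dat μ φ U lam TV A) (n : ℕ) (s : ℤ) : Ct μ U n (pq μ) fun u g t =>
    t ≤ g.2.2 ∧ g.2.2 ≤ t + u.2.2 ∧ g.1 = u.1 ∧ pt g.1 g.2.1 t = pt (!u.1) u.2.1 s ∧
      ps φ g < ps φ u where
  p0 := pq_nonneg μ
  p1 := fun g t => by
    rw [pp, p_rev h.gib]
    refine fixD h.gib _ g.1 (pt (!g.1) (pt g.1 g.2.1 t) (-s)) (meas_Av _ _) fun u e => ?_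
    split_ifs at e ⊢ with a
    · exact ⟨a.2.2.1.symm, by rw [a.2.2.2.1, a.2.2.1, back], le_rfl⟩
    · exact absurd rfl e
  p2 := fun u => by
    calc _ ≤ ∑ g ∈ II n, ∑ j ∈ range (u.2.2 + 1), if g.1 = u.1 ∧
          pt g.1 g.2.1 g.2.2 = pt u.1 (pt (!u.1) u.2.1 s) j then pq μ u g else 0 := by
          refine sum_le_sum fun g _ => sum_inj _ _ (fun t => g.2.2 - t) ?_ ?_ ?_ fun j _ => ?_
          · intro t _ e
            have a := by_contra fun c => e (if_neg c)
            exact mem_range.2 (by omega)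
          · intro t a1 t' a2 _ _ e
            have := mem_range.1 a1
            have := mem_range.1 a2
            omega
          · intro t _ e
            have a := by_contra fun c => e (if_neg c)
            rw [if_pos a, if_pos]
            refine ⟨a.2.2.1, ?_⟩
            rw [← a.2.2.2.1, ← a.2.2.1, RunAux.pt_pt, Nat.cast_sub a.1, add_sub_cancel]
          · split_ifs
            exacts [pq_nonneg _ _ _, le_rfl]
      _ ≤ ∑ j ∈ range (u.2.2 + 1), pp μ u := by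
          rw [sum_comm]
          refine sum_le_sum fun j _ => fixU h.gib _ u.1 (pt u.1 (pt (!u.1) u.2.1 s) j)
            (meas_Av _ _) fun g e => ?_
          split_ifs at e ⊢ with a
          · exact ⟨a.1, a.2, le_rfl⟩
          · exact absurd rfl e
      _ = _ := by simp
  sub := fun u g t a j hj => h.sub a.2.2.2.2 hj

theorem ctB (h : Dat μ φ U lam TV A) (n : ℕ) (s : ℤ) :
    Ct μ U n (fun u g => pq μ g u) fun u g t =>
    t ≤ g.2.2 ∧ t ≤ u.2.2 ∧ g.1 = u.1 ∧ pt g.1 g.2.1 t = pt (!u.1) (pt u.1 u.2.1 u.2.2) (-s) ∧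
      ps φ g < ps φ u where
  p0 := fun _ _ => pq_nonneg μ _ _
  p1 := fun g t => by
    refine fixU h.gib _ g.1 (pt (!g.1) (pt g.1 g.2.1 t) (- -s)) (meas_Av _ _) fun u e => ?_
    split_ifs at e ⊢ with a
    · exact ⟨a.2.2.1.symm, by rw [a.2.2.2.1, a.2.2.1, back], le_rfl⟩
    · exact absurd rfl e
  p2 := fun u => by
    calc _ ≤ ∑ g ∈ II n, ∑ j ∈ range (u.2.2 + 1), if g.1 = u.1 ∧ g.2.1 =
          pt u.1 (pt (!u.1) (pt u.1 u.2.1 u.2.2) (-s)) (-(j : ℕ)) then pq μ g u else 0 := by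
          refine sum_le_sum fun g _ => sum_inj _ _ id ?_ (fun _ _ _ _ _ _ e => e) ?_ fun j _ => ?_
          · intro t _ e
            have a := by_contra fun c => e (if_neg c)
            exact mem_range.2 (Nat.lt_succ_of_le a.2.1)
          · intro t _ e
            have a := by_contra fun c => e (if_neg c)
            rw [if_pos a, if_pos]
            refine ⟨a.2.2.1, ?_⟩
            rw [← a.2.2.2.1, ← a.2.2.1, id, back]
          · split_ifs
            exacts [pq_nonneg _ _ _, le_rfl]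
      _ ≤ ∑ j ∈ range (u.2.2 + 1), pp μ u := by
          rw [sum_comm]
          refine sum_le_sum fun j _ => ?_
          rw [pp, p_rev h.gib]
          refine fixD h.gib _ u.1 (pt u.1 (pt (!u.1) (pt u.1 u.2.1 u.2.2) (-s)) (-(j : ℕ)))
            (meas_Av _ _) fun g e => ?_
          split_ifs at e ⊢ with a
          · exact ⟨a.1, a.2, le_rfl⟩
          · exact absurd rfl e
      _ = _ := by simp
  sub := fun u g t a j hj => h.sub a.2.2.2.2 hj

theorem r3a_row (s : ℤ) (hs : s = 1 ∨ s = -1) : PStmt' fun φ => R3a φ s := by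
  intro μ φ U lam TV A h n
  refine final h (ctA h n s) (shA h) hs (fun u g t a => a.2.2) (fun u => ?_) ?_
  · simpa only [Nat.cast_zero, pt_zero] using ps_le φ u (Nat.zero_le _)
  · rintro u g ⟨⟨a1, i, a2, a3, a4⟩, a5⟩
    exact ⟨i, a2, a2, a3, a1, by rw [a1, a4], a5⟩

theorem r3b_row (s : ℤ) (hs : s = 1 ∨ s = -1) : PStmt' fun φ => R3b φ s := by
  intro μ φ U lam TV A h n
  have := final h (ctB h n s) (shB h) (σ := -s) (by omega) (fun u g t a => a.2.2)
    (fun u => ps_le φ u le_rfl) (R := fun u g => R3b φ s g u) (by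
      rintro ⟨b, x', l'⟩ ⟨b2, x, l⟩ ⟨⟨a1, i, a2, a3, a4⟩, a5⟩
      simp only at a1 a2 a3 a4
      subst a1
      refine ⟨l' - i, by simp only; omega, by simp only; omega, by simp only; omega, rfl, ?_, a5⟩
      simp only [Nat.cast_sub a2]
      cases b <;> simp only [pt_true, pt_false, Bool.not_true, Bool.not_false, Prod.mk.injEq]
        at a4 ⊢ <;> omega)
  rw [Pc, sum_comm]
  refine le_trans (le_of_eq ?_) this
  refine sum_congr rfl fun u _ => sum_congr rfl fun g _ => ?_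
  rw [← neg_sub, neg_sq]

end Pool.Agent.MP_151d89_pr.H87
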